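import Mathlib
import Pool.Agent.V11150.DenseFlex

set_option autoImplicit false

namespace Pool.Agent.Results.MP_a65cb7_co.DenseNoRigidPart

open Pool.Agent.V11150.DenseFlex

/-- Q1 is false: for every constant `C` there are arbitrarily large `n` and graphs `G` on
`{0, …, n-1}` with at least `C n^{7/6}` (even at least `n² / 8`) edges that have an injective
planar realization with non-collinear neighbourhoods in which no subgraph on at least three
vertices is rigid. -/
theorem result : ∀ (C : ℝ) (N : ℕ), ∃ n ≥ N, ∃ (G : SimpleGraph (Fin n)) (p : Fin n → E2),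
    C * (n : ℝ) ^ (7 / 6 : ℝ) ≤ (G.edgeSet.ncard : ℝ) ∧
    (n : ℝ) ^ 2 / 8 ≤ (G.edgeSet.ncard : ℝ) ∧ Function.Injective p ∧ NonCollinearNbhds G p ∧
    ∀ G' : G.Subgraph, 3 ≤ G'.verts.ncard → ¬ RigidSub G' p :=
  main

end Pool.Agent.Results.MP_a65cb7_co.DenseNoRigidPart
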